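import Pool.Agent.Run7.h547.KM.Iface

/-!
Project KM (helper547), piece VAL.
-/

set_option autoImplicit false

namespace Pool.Agent.Run7.h896.KM

open Pool.Agent.Run7.h547.KM

def tA : List ℤ :=
   [0, 3, 6, 18, 45, 135, 378, 1134, 3324, 9981, 29733, 89280, 267273, 801957, 2403018, 7203942,
    21582282, 64661358, 193681917]

def tB : List ℤ :=
   [0, 0, 3, 8, 33, 96, 313, 936, 2904, 8752, 26730, 80769, 244888, 739290, 2232477, 6726735,
    20258463, 60937386, 183206543]

def tC : List (List ℤ) :=
  [[1],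
   [-3, -3],
   [3, 3, 3],
   [9, 9, 9, -1],
   [0, 0, 0, -15, 0],
   [-21, -21, -21, -39, 6, 0],
   [-63, -63, -63, -92, 45, 0, 0],
   [-57, -57, -57, -93, 204, -15, 0, 0],
   [-45, -45, -45, -93, 609, -123, 0, 0, 0],
   [117, 117, 117, 103, 1629, -684, 20, 0, 0, 0],
   [528, 528, 528, 666, 3978, -2703, 255, 0, 0, 0, 0],
   [1467, 1467, 1467, 2241, 9075, -9543, 1626, -15, 0, 0, 0, 0],
   [3501, 3501, 3501, 6271, 19728, -30213, 8179, -333, 0, 0, 0, 0, 0],
   [8433, 8433, 8433, 17232, 40629, -90744, 34458, -2784, 6, 0, 0, 0, 0, 0],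
   [19749, 19749, 19749, 45135, 76071, -259713, 131604, -17001, 255, 0, 0, 0, 0, 0, 0],
   [46746, 46746, 46746, 115146, 117315, -720495, 466072, -85401, 3204, -1, 0, 0, 0, 0, 0, 0],
   [107715, 107715, 107715, 279372, 85401, -1936518, 1568592, -380241, 24402, -105, 0, 0, 0, 0,
    0, 0, 0],
   [234948, 234948, 234948, 630354, -370128, -5058882, 5068980, -1550001, 147813, -2289, 0, 0,
    0, 0, 0, 0, 0, 0],
   [450513, 450513, 450513, 1252666, -2526858, -12788568, 15873907, -5933799, 765711, -23664,
    18, 0, 0, 0, 0, 0, 0, 0, 0]]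

/-- values of `a` -/
def A (m : ℕ) : ℤ := tA.getD m 0

/-- values of `b` -/
def B (m : ℕ) : ℤ := tB.getD m 0

/-- values of the coefficients -/
def C (m : ℕ) (w : ℤ) : ℤ := (tC.getD m []).getD w.natAbs 0

/-- `f 1 + ... + f n` -/
def sm (f : ℕ → ℤ) : ℕ → ℤ
  | 0 => 0
  | n + 1 => sm f n + f (n + 1)

/-- the known terms of the recursion -/
def G (m : ℕ) (w : ℤ) : ℤ :=
  sm (fun n => sm (fun d => (n : ℤ) * (A n * (C (m + 1 - n * d) (w - d) + C (m + 1 - n * d) (w + d)) +
    (A n + B n) * C (m + 1 - n * d) w)) ((m + 1) / n)) m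

/-- all of `p 0`, ..., `p (n - 1)` -/
def allN (p : ℕ → Bool) : ℕ → Bool
  | 0 => true
  | n + 1 => p n && allN p n

/-- the check of the values for `m + 1` -/
def chk (m : ℕ) : Bool :=
  decide (((m : ℤ) + 1) * A (m + 1) = G m 2 - G m 1 + (if m = 0 then 3 else 0)) &&
  decide (((m : ℤ) + 1) * B (m + 1) = G m 1 - G m 0) &&
  allN (fun j => decide (((m : ℤ) + 1) * C (m + 1) ((j : ℤ) - (19 - m)) =
    -G m ((j : ℤ) - (19 - m)) - ((m : ℤ) + 1) *
      (A (m + 1) * ((if (j : ℤ) - (19 - m) - 1 = 0 then 1 else 0) +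
        (if (j : ℤ) - (19 - m) + 1 = 0 then 1 else 0)) +
        (A (m + 1) + B (m + 1)) * (if (j : ℤ) - (19 - m) = 0 then 1 else 0)))) (39 - 2 * m)

theorem chk_all : allN chk 18 = true := by decide +kernel

theorem allN_spec {p : ℕ → Bool} {n : ℕ} (h : allN p n = true) : ∀ i < n, p i = true := by
  induction n with
  | zero => intro i hi; omega
  | succ n ih =>
    intro i hi
    simp only [allN, Bool.and_eq_true] at h
    rcases Nat.lt_succ_iff_lt_or_eq.1 hi with h1 | h1
    · exact ih h.2 i h1
    · rw [h1]; exact h.1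

theorem sm_eq (f : ℕ → ℤ) (n : ℕ) : ∑ i ∈ Finset.Icc 1 n, f i = sm f n := by
  induction n with
  | zero => simp [sm]
  | succ n ih => rw [Finset.sum_Icc_succ_top (by omega), ih]; rfl

/-- the induction -/
theorem main (hR : S_REC) (a b : ℕ → ℕ) (hK : IsKM a b) : ∀ m ≤ 18,
    (1 ≤ m → (a m : ℤ) = A m ∧ (b m : ℤ) = B m) ∧
    ∀ w : ℤ, |w| ≤ 20 - m → cf a b m w = C m w := by
  intro m
  induction m using Nat.strong_induction_on with
  | _ m ih =>
    intro hm
    rcases Nat.eq_zero_or_pos m with rfl | hpos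
    · refine ⟨fun h => by omega, fun w _ => ?_⟩
      rw [(hR a b).1 w]
      unfold C
      by_cases hw : w = 0
      · subst hw; rfl
      · rw [if_neg hw]
        obtain ⟨k, hk⟩ : ∃ k, w.natAbs = k + 1 := ⟨w.natAbs - 1, by omega⟩
        rw [hk]
        rfl
    · obtain ⟨m, rfl⟩ : ∃ k, m = k + 1 := ⟨m - 1, by omega⟩
      -- the recursion with known terms
      have hrec : ∀ w : ℤ, |w| ≤ 19 - m → ((m : ℤ) + 1) * cf a b (m + 1) w =
          -G m w - ((m : ℤ) + 1) * (a (m + 1) * ((if w - 1 = 0 then 1 else 0) +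
            (if w + 1 = 0 then 1 else 0)) + (a (m + 1) + b (m + 1)) * (if w = 0 then 1 else 0)) := by
        intro w hw
        have h1 := (hR a b).2 (m + 1) (by omega) w
        rw [Finset.sum_Icc_succ_top (by omega)] at h1
        have h2 : ∑ d ∈ Finset.Icc 1 ((m + 1) / (m + 1)), ((m + 1 : ℕ) : ℤ) *
            (a (m + 1) * (cf a b (m + 1 - (m + 1) * d) (w - d) +
              cf a b (m + 1 - (m + 1) * d) (w + d)) +
              (a (m + 1) + b (m + 1)) * cf a b (m + 1 - (m + 1) * d) w) =
            ((m : ℤ) + 1) * (a (m + 1) * ((if w - 1 = 0 then 1 else 0) +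
            (if w + 1 = 0 then 1 else 0)) + (a (m + 1) + b (m + 1)) * (if w = 0 then 1 else 0)) := by
          rw [Nat.div_self (by omega), Finset.Icc_self, Finset.sum_singleton, mul_one, Nat.sub_self,
            (hR a b).1, (hR a b).1, (hR a b).1]
          push_cast
          rfl
        have h3 : ∑ n ∈ Finset.Icc 1 m, ∑ d ∈ Finset.Icc 1 ((m + 1) / n), (n : ℤ) *
            (a n * (cf a b (m + 1 - n * d) (w - d) + cf a b (m + 1 - n * d) (w + d)) +
              (a n + b n) * cf a b (m + 1 - n * d) w) = G m w := by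
          unfold G
          rw [← sm_eq]
          refine Finset.sum_congr rfl fun n hn => ?_
          rw [← sm_eq]
          refine Finset.sum_congr rfl fun d hd => ?_
          rw [Finset.mem_Icc] at hn hd
          have hle : n * d ≤ m + 1 := by
            calc n * d ≤ n * ((m + 1) / n) := Nat.mul_le_mul_left n hd.2
              _ ≤ m + 1 := Nat.mul_div_le (m + 1) n
          have hge : d ≤ n * d := Nat.le_mul_of_pos_left d (by omega)
          have ha := ((ih n (by omega) (by omega)).1 hn.1).1
          have hb := ((ih n (by omega) (by omega)).1 hn.1).2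
          have hc : ∀ v : ℤ, |v| ≤ |w| + d →
              cf a b (m + 1 - n * d) v = C (m + 1 - n * d) v := by
            intro v hv
            refine (ih (m + 1 - n * d) (by omega) (by omega)).2 v ?_
            have : ((m + 1 - n * d : ℕ) : ℤ) = m + 1 - (n * d : ℕ) := by omega
            rw [this]
            have h5 : (d : ℤ) ≤ ((n * d : ℕ) : ℤ) := by exact_mod_cast hge
            linarith
          rw [ha, hb, hc (w - d) (by
              calc |w - d| ≤ |w| + |(d : ℤ)| := abs_sub w d
                _ = |w| + d := by rw [Nat.abs_cast]),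
            hc (w + d) (by
              calc |w + d| ≤ |w| + |(d : ℤ)| := abs_add_le w d
                _ = |w| + d := by rw [Nat.abs_cast]),
            hc w (by have : (0 : ℤ) ≤ d := by positivity
                     linarith)]
        rw [h2, h3] at h1
        push_cast at h1
        linarith
      have hchk := allN_spec chk_all m (by omega)
      unfold chk at hchk
      simp only [Bool.and_eq_true, decide_eq_true_eq] at hchk
      obtain ⟨⟨hA, hB⟩, hC⟩ := hchk
      have hC' := fun j hj => of_decide_eq_true (allN_spec hC j hj)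
      have hm0 : ((m : ℤ) + 1) ≠ 0 := by positivity
      have h0 := hrec 0 (by rw [abs_zero]; omega)
      have h1 := hrec 1 (by rw [abs_one]; omega)
      have h2 := hrec 2 (by rw [show |(2 : ℤ)| = 2 from rfl]; omega)
      have k0 : cf a b (m + 1) 0 - cf a b (m + 1) 1 = 0 := by
        have := (hK (m + 1)).1
        rw [if_neg (by omega)] at this
        exact this
      have k1 : cf a b (m + 1) 1 - cf a b (m + 1) 2 = if m = 0 then -3 else 0 := by
        have h5 := (hK (m + 1)).2
        by_cases h6 : m = 0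
        · rw [if_pos (by omega)] at h5
          rw [if_pos h6]
          exact h5
        · rw [if_neg (by omega)] at h5
          rw [if_neg h6]
          exact h5
      norm_num at h0 h1 h2
      have hb : (b (m + 1) : ℤ) = B (m + 1) := by
        have : ((m : ℤ) + 1) * (b (m + 1) : ℤ) = ((m : ℤ) + 1) * B (m + 1) := by
          rw [hB]
          linear_combination h0 - h1 - ((m : ℤ) + 1) * k0
        exact mul_left_cancel₀ hm0 this
      have ha : (a (m + 1) : ℤ) = A (m + 1) := by
        have : ((m : ℤ) + 1) * (a (m + 1) : ℤ) = ((m : ℤ) + 1) * A (m + 1) := by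
          rw [hA]
          by_cases h5 : m = 0
          · have h6 : (m : ℤ) = 0 := by rw [h5]; rfl
            rw [if_pos h5] at k1 ⊢
            linear_combination h1 - h2 - ((m : ℤ) + 1) * k1 + 3 * h6
          · rw [if_neg h5] at k1 ⊢
            linear_combination h1 - h2 - ((m : ℤ) + 1) * k1
        exact mul_left_cancel₀ hm0 this
      refine ⟨fun _ => ⟨ha, hb⟩, fun w hw => ?_⟩
      have hw' : |w| ≤ 19 - m := by push_cast at hw; linarith
      have h6 := hrec w hw'
      have h7 := abs_le.1 hw'
      obtain ⟨j, hj⟩ : ∃ j : ℕ, (j : ℤ) - (19 - m) = w := ⟨(w + (19 - m)).toNat, by omega⟩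
      have h8 := hC' j (by omega)
      rw [hj] at h8
      rw [ha, hb, ← h8] at h6
      exact mul_left_cancel₀ hm0 h6

/-- VAL. -/
theorem t_VAL : S_VAL := by
  intro hR a b hK
  have h := ((main hR a b hK 18 le_rfl).1 (by omega)).1
  have h2 : A 18 = 193681917 := rfl
  rw [h2] at h
  exact_mod_cast h

end Pool.Agent.Run7.h896.KM
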